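import Pool.Agent.Helper69_SER.Basic

set_option autoImplicit false

namespace SER.H29

open SER Function

/-- the predicate used in Claim G -/
def nuBig (R : Type) [Ring R] (Q : Type) [AddCommGroup Q] [Module R Q] (Y : ModuleCat.{0} R)
    (x : Y) : Prop :=
  ∃ A : Submodule R Y, Sq R (Y ⧸ A) Q ∧ x ∉ A

theorem sq_comap {R : Type} [Ring R] {Y : Type} [AddCommGroup Y] [Module R Y]
    {Z : Type} [AddCommGroup Z] [Module R Z] (g : Y →ₗ[R] Z) (A : Submodule R Z) :
    Sq R (Y ⧸ A.comap g) (Z ⧸ A) := by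
  refine Sq.of_inj (Submodule.mapQ (A.comap g) A g le_rfl) ?_
  rw [← LinearMap.ker_eq_bot, eq_bot_iff]
  intro x hx
  induction x using Submodule.Quotient.induction_on with
  | H x =>
    rw [LinearMap.mem_ker, Submodule.mapQ_apply, Submodule.Quotient.mk_eq_zero] at hx
    rw [Submodule.mem_bot, Submodule.Quotient.mk_eq_zero]
    exact hx

theorem sq_factor {R : Type} [Ring R] {Y : Type} [AddCommGroup Y] [Module R Y]
    {Z : Type} [AddCommGroup Z] [Module R Z] (g : Y →ₗ[R] Z) (hg : Surjective g)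
    (A : Submodule R Y) (B : Submodule R Z) (h : A ≤ B.comap g) :
    Sq R (Z ⧸ B) (Y ⧸ A) := by
  refine Sq.of_surj (Submodule.mapQ A B g h) ?_
  intro x
  induction x using Submodule.Quotient.induction_on with
  | H x =>
    obtain ⟨y, rfl⟩ := hg x
    exact ⟨Submodule.Quotient.mk y, by rw [Submodule.mapQ_apply]⟩

theorem nuBig_big (R : Type) [Ring R] (Q : Type) [AddCommGroup Q] [Module R Q] :
    Big R (nuBig R Q) where
  zero := by
    rintro Y ⟨A, _, h⟩
    exact h A.zero_mem
  add := by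
    rintro Y x y ⟨A, hA, h⟩
    by_cases hx : x ∈ A
    · right
      refine ⟨A, hA, fun hy => h (A.add_mem hx hy)⟩
    · exact Or.inl ⟨A, hA, hx⟩
  map := by
    rintro Y Z g x ⟨A, hA, h⟩
    exact ⟨A.comap g, (sq_comap g A).trans hA, h⟩

theorem cg (elimN : ElimNStmt) (hk : KStmt) (count : CountStmt) : CGStmt := by
  intro R _ N _ _ hN hne ι U hU L Q _ _ hQ
  by_contra hcon
  have hP3 : P3 R N (nuBig R Q) ι U := by
    intro k hZ c hc x hx
    obtain ⟨A, hA, hxA⟩ := hx
    rcases (hU k).2 (LinearMap.ker c) A with h | h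
    · refine ⟨A.map c, (sq_factor c hc A (A.map c) (Submodule.le_comap_map c A)).trans hA, ?_⟩
      rintro ⟨a, ha, hac⟩
      apply hxA
      have h1 : x - a ∈ LinearMap.ker c := by
        rw [LinearMap.mem_ker, map_sub, hac, sub_self]
      have h2 := A.add_mem (h h1) ha
      simpa using h2
    · exfalso
      apply hcon
      have h1 : Sq R (U k ⧸ LinearMap.ker c) (U k ⧸ A) := by
        refine sq_factor (LinearMap.id : U k →ₗ[R] U k) (fun y => ⟨y, rfl⟩) A
          (LinearMap.ker c) ?_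
        intro a ha
        exact h ha
      have h2 : Sq R (U k) (U k ⧸ LinearMap.ker c) :=
        Sq.of_surj (c.quotKerEquivOfSurjective hc).toLinearMap
          (c.quotKerEquivOfSurjective hc).surjective
      refine ⟨k, (h2.trans h1).trans hA, ?_⟩
      obtain ⟨f, hf, hf'⟩ := hZ
      exact HI.exists_inj (hU k).2 (hU k).1 hf hf'
  have hnot := elimN R N hN ι U hU L (nuBig R Q) (nuBig_big R Q) hP3
  obtain ⟨i, α, β, hinj⟩ := hk R N hN hne ι U hU L
  have hcount := count R Q (U i) (hQ i) ((β ∘ₗ α) ∘ₗ (β ∘ₗ α)) (hinj.comp hinj)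
  have hsurj : Surjective (β ∘ₗ α) := by
    intro v
    have h1 := hnot (U i) β (α v)
    by_contra hv
    apply h1
    refine ⟨_, hcount, ?_⟩
    rintro ⟨w, hw⟩
    apply hv
    refine ⟨w, ?_⟩
    apply hinj
    exact hw
  exact hN (U i) (hU i) α β ⟨hinj, hsurj⟩

end SER.H29
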