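import Pool.Agent.Helper69_SER.Stmts

set_option autoImplicit false

namespace SER.H29

open SER

/-- a sum of maps out of a chain module which is injective has an injective term (two terms) -/
theorem inj_or_of_add {R : Type} [Ring R] {X : Type} [AddCommGroup X] [Module R X]
    {Y : Type} [AddCommGroup Y] [Module R Y] (hX : Chain R X) (f g : X →ₗ[R] Y)
    (h : Function.Injective (f + g)) : Function.Injective f ∨ Function.Injective g := by
  rcases hX (LinearMap.ker f) (LinearMap.ker g) with hle | hle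
  · left
    rw [← LinearMap.ker_eq_bot, eq_bot_iff]
    intro x hx
    have h1 : f x = 0 := hx
    have h2 : g x = 0 := hle hx
    have h3 : (f + g) x = (f + g) 0 := by simp [h1, h2]
    exact h h3
  · right
    rw [← LinearMap.ker_eq_bot, eq_bot_iff]
    intro x hx
    have h1 : g x = 0 := hx
    have h2 : f x = 0 := hle hx
    have h3 : (f + g) x = (f + g) 0 := by simp [h1, h2]
    exact h h3

/-- finite sums -/
theorem exists_inj_of_sum {R : Type} [Ring R] {X : Type} [AddCommGroup X] [Module R X]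
    {Y : Type} [AddCommGroup Y] [Module R Y] (hX : Uni R X) {κ : Type} (F : Finset κ)
    (g : κ → (X →ₗ[R] Y)) (h : Function.Injective ((∑ j ∈ F, g j : X →ₗ[R] Y) : X → Y)) :
    ∃ j ∈ F, Function.Injective (g j) := by
  classical
  induction F using Finset.induction_on with
  | empty =>
    exfalso
    obtain ⟨a, b, hab⟩ := hX.1
    exact hab (h (by simp))
  | insert a s ha ih =>
    rw [Finset.sum_insert ha] at h
    rcases inj_or_of_add hX.2 _ _ h with h1 | h1
    · exact ⟨a, Finset.mem_insert_self _ _, h1⟩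
    · obtain ⟨j, hj, hj'⟩ := ih h1
      exact ⟨j, Finset.mem_insert_of_mem hj, hj'⟩

theorem seq : SeqStmt := by
  classical
  intro R _ N _ _ ι U hU L O hyp
  let Z := Σ (i : ι), ((U i →ₗ[R] N) × (N →ₗ[R] U i)) × ι
  let P : Z → Prop := fun z =>
    z.1 ∈ O ∧ Function.Injective (z.2.1.2 ∘ₗ z.2.1.1) ∧ {k | L.b k ∘ₗ z.2.1.1 ≠ 0}.Finite ∧
      ∀ m : N, z.2.1.2 m ≠ 0 → L.b z.2.2 m ≠ 0
  let r : Z → Z → Prop := fun x y => L.b y.2.2 ∘ₗ x.2.1.1 = 0 ∧ x.2.2 ≠ y.2.2
  have key : ∀ s : Finset Z, (∀ x ∈ s, P x) → ∃ y, P y ∧ ∀ x ∈ s, r x y := by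
    intro s hs
    have hfin : (⋃ x ∈ s, {k | L.b k ∘ₗ x.2.1.1 ≠ 0}).Finite :=
      Set.Finite.biUnion s.finite_toSet (fun x hx => (hs x hx).2.2.1)
    let T : Finset ι := hfin.toFinset ∪ s.image (fun x => x.2.2)
    obtain ⟨i, hi, α, β, hinj, hsupp, hT⟩ := hyp T
    let F : Finset ι := hsupp.toFinset
    have hsum : β ∘ₗ α = ∑ j ∈ F, (β ∘ₗ L.a j) ∘ₗ (L.b j ∘ₗ α) := by
      ext v
      rw [LinearMap.sum_apply]
      have h1 := L.sum (α v) F (by
        intro k hk
        rw [Set.Finite.mem_toFinset]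
        intro h0
        exact hk (by simpa using LinearMap.congr_fun h0 v))
      conv_lhs => rw [LinearMap.comp_apply, ← h1, map_sum]
      rfl
    rw [hsum] at hinj
    obtain ⟨j, hj, hj'⟩ := exists_inj_of_sum (hU i) F _ hinj
    have hbinj : Function.Injective (L.b j ∘ₗ α) := by
      have : Function.Injective ((β ∘ₗ L.a j) ∘ (L.b j ∘ₗ α)) := hj'
      exact Function.Injective.of_comp this
    have hjT : j ∉ T := fun h => hT j h hbinj
    refine ⟨⟨i, (α, (β ∘ₗ L.a j) ∘ₗ L.b j), j⟩, ⟨hi, hj', hsupp, ?_⟩, ?_⟩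
    · intro m hm h0
      apply hm
      change (β ∘ₗ L.a j) (L.b j m) = 0
      rw [h0, map_zero]
    · intro x hx
      refine ⟨?_, ?_⟩
      · by_contra hne
        apply hjT
        apply Finset.mem_union_left
        rw [Set.Finite.mem_toFinset]
        simp only [Set.mem_iUnion]
        exact ⟨x, hx, hne⟩
      · intro he
        apply hjT
        apply Finset.mem_union_right
        rw [Finset.mem_image]
        exact ⟨x, hx, he⟩
  obtain ⟨f, hf, hr⟩ := exists_seq_of_forall_finset_exists P r key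
  refine ⟨fun n => (f n).1, fun n => (f n).2.1.1, fun n => (f n).2.1.2, fun n => (hf n).1,
    fun n => (hf n).2.1, ?_, ?_⟩
  · intro k n hkn
    ext v
    by_contra hne
    have h1 := (hf n).2.2.2 ((f k).2.1.1 v) (by simpa using hne)
    have h2 := LinearMap.congr_fun (hr k n hkn).1 v
    exact h1 (by simpa using h2)
  · intro m
    have hinj : Function.Injective (fun n => (f n).2.2) := by
      intro a b hab
      rcases lt_trichotomy a b with h | h | h
      · exact absurd hab (hr a b h).2
      · exact h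
      · exact absurd hab.symm (hr b a h).2
    have hfin : ((fun n => (f n).2.2) ⁻¹' {i | L.b i m ≠ 0}).Finite :=
      (L.fin m).preimage (hinj.injOn)
    refine hfin.subset ?_
    intro n hn
    exact (hf n).2.2.2 m hn

end SER.H29
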